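import Mathlib

set_option autoImplicit false

open Finset

namespace Pool.Agent.Helper39.KE

variable {α : Type} [DecidableEq α]

/-- average over the ordered selections of `s` disjoint ordered pairs from `C` -/
noncomputable def avg : ℕ → Finset α → (List (α × α) → ℝ) → ℝ
  | 0, _, f => f []
  | s + 1, C, f =>
    (∑ p ∈ C.offDiag, avg s ((C.erase p.1).erase p.2) fun l => f (p :: l)) / (C.offDiag.card : ℝ)

/-- the selections -/
def Valid : ℕ → Finset α → List (α × α) → Prop
  | 0, _, l => l = []
  | s + 1, C, l => ∃ p ∈ C.offDiag, ∃ l', Valid s ((C.erase p.1).erase p.2) l' ∧ l = p :: l'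

theorem avg_mono (s : ℕ) : ∀ (C : Finset α) (f g : List (α × α) → ℝ),
    (∀ l, Valid s C l → f l ≤ g l) → avg s C f ≤ avg s C g := by
  induction s with
  | zero => intro C f g h; exact h [] rfl
  | succ s ih =>
    intro C f g h
    unfold avg
    refine div_le_div_of_nonneg_right (sum_le_sum fun p hp => ?_) (Nat.cast_nonneg _)
    exact ih _ _ _ fun l hl => h _ ⟨p, hp, l, hl, rfl⟩

theorem avg_add (s : ℕ) : ∀ (C : Finset α) (f g : List (α × α) → ℝ),
    avg s C (fun l => f l + g l) = avg s C f + avg s C g := by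
  induction s with
  | zero => intro C f g; rfl
  | succ s ih =>
    intro C f g
    unfold avg
    rw [← add_div, ← sum_add_distrib]
    congr 1
    exact sum_congr rfl fun p _ => ih _ _ _

theorem avg_mul (s : ℕ) : ∀ (C : Finset α) (a : ℝ) (f : List (α × α) → ℝ),
    avg s C (fun l => a * f l) = a * avg s C f := by
  induction s with
  | zero => intro C a f; rfl
  | succ s ih =>
    intro C a f
    unfold avg
    rw [← mul_div_assoc, mul_sum]
    congr 1
    exact sum_congr rfl fun p _ => ih _ _ _

theorem avg_zero (s : ℕ) (C : Finset α) : avg s C (fun _ => (0 : ℝ)) = 0 := by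
  have := avg_mul s C 0 (fun _ => (0 : ℝ))
  simpa using this

theorem avg_sum {W : Type} (s : ℕ) (C : Finset α) (S : Finset W) (f : W → List (α × α) → ℝ) :
    avg s C (fun l => ∑ w ∈ S, f w l) = ∑ w ∈ S, avg s C (f w) := by
  classical
  induction S using Finset.induction_on with
  | empty => simp [avg_zero]
  | insert a S ha ih =>
    simp only [sum_insert ha]
    rw [avg_add, ih]

theorem card_erase2 {C : Finset α} {s : ℕ} (hC : C.card = 2 * (s + 1)) {p : α × α}
    (hp : p ∈ C.offDiag) : ((C.erase p.1).erase p.2).card = 2 * s := by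
  rw [mem_offDiag] at hp
  rw [card_erase_of_mem (mem_erase.2 ⟨hp.2.2.symm, hp.2.1⟩), card_erase_of_mem hp.1, hC]
  omega

theorem card_off {C : Finset α} {s : ℕ} (hC : C.card = 2 * (s + 1)) :
    (C.offDiag.card : ℝ) = (2 * (s + 1)) * (2 * s + 1) := by
  rw [offDiag_card, hC]
  have : 2 * (s + 1) * (2 * (s + 1)) - 2 * (s + 1) = 2 * (s + 1) * (2 * s + 1) := by
    have : 2 * (s + 1) * (2 * (s + 1)) = 2 * (s + 1) * (2 * s + 1) + 2 * (s + 1) := by ring
    omega
  rw [this]; push_cast; ring

theorem avg_const (s : ℕ) : ∀ (C : Finset α) (a : ℝ), C.card = 2 * s →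
    avg s C (fun _ => a) = a := by
  induction s with
  | zero => intro C a _; rfl
  | succ s ih =>
    intro C a hC
    unfold avg
    have h1 : ∑ p ∈ C.offDiag, avg s ((C.erase p.1).erase p.2) (fun _ => a)
        = C.offDiag.card * a := by
      rw [sum_congr rfl fun p hp => ih _ a (card_erase2 hC hp), sum_const, nsmul_eq_mul]
    rw [h1, mul_div_assoc, mul_comm, div_mul_cancel₀]
    rw [card_off hC]; positivity

/-- the number of pairs with different colours -/
theorem card_diff {r : ℕ} (hr : 1 ≤ r) (C : Finset α) (f : α → Fin r) :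
    ((C.offDiag.filter fun x => f x.1 ≠ f x.2).card : ℝ) ≤
      (((r : ℝ) - 1) / r) * (C.card : ℝ) ^ 2 := by
  have h1 : ((C ×ˢ C).filter fun x => f x.1 = f x.2).card =
      ∑ v : Fin r, (C.filter fun c => f c = v).card ^ 2 := by
    have h2 : ((C ×ˢ C).filter fun x => f x.1 = f x.2).card =
        ∑ v ∈ (Finset.univ : Finset (Fin r)), (((C ×ˢ C).filter fun x => f x.1 = f x.2).filter
          fun x => f x.1 = v).card :=
      Finset.card_eq_sum_card_fiberwise (fun x _ => Finset.mem_coe.2 (Finset.mem_univ _))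
    rw [h2]
    refine Finset.sum_congr rfl fun v _ => ?_
    have h3 : (((C ×ˢ C).filter fun x => f x.1 = f x.2).filter fun x => f x.1 = v) =
        (C.filter fun c => f c = v) ×ˢ (C.filter fun c => f c = v) := by
      ext x
      simp only [Finset.mem_filter, Finset.mem_product]
      constructor
      · rintro ⟨⟨⟨h4, h5⟩, h6⟩, h7⟩
        exact ⟨⟨h4, h7⟩, h5, h6 ▸ h7⟩
      · rintro ⟨⟨h4, h5⟩, h6, h7⟩
        exact ⟨⟨⟨h4, h6⟩, h5.trans h7.symm⟩, h5⟩
    rw [h3, Finset.card_product, sq]
  have h2 : C.card = ∑ v : Fin r, (C.filter fun c => f c = v).card :=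
    Finset.card_eq_sum_card_fiberwise (fun x _ => Finset.mem_coe.2 (Finset.mem_univ _))
  have h3 : (C.card : ℝ) ^ 2 ≤ r * ∑ v : Fin r, ((C.filter fun c => f c = v).card : ℝ) ^ 2 := by
    have h5 : (C.card : ℝ) = ∑ v : Fin r, ((C.filter fun c => f c = v).card : ℝ) := by
      exact_mod_cast h2
    rw [h5]
    have := sq_sum_le_card_mul_sum_sq (s := (Finset.univ : Finset (Fin r)))
      (f := fun v => ((C.filter fun c => f c = v).card : ℝ))
    rwa [Finset.card_univ, Fintype.card_fin] at this
  have h4 := Finset.card_filter_add_card_filter_not (s := C ×ˢ C) (fun x => f x.1 = f x.2)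
  rw [Finset.card_product, ← sq, h1] at h4
  have h4' : (∑ v : Fin r, ((C.filter fun c => f c = v).card : ℝ) ^ 2) +
      (((C ×ˢ C).filter fun x => ¬ f x.1 = f x.2).card : ℝ) = (C.card : ℝ) ^ 2 := by
    exact_mod_cast h4
  have h5 : ((C.offDiag.filter fun x => f x.1 ≠ f x.2).card : ℝ) ≤
      (((C ×ˢ C).filter fun x => ¬ f x.1 = f x.2).card : ℝ) := by
    have : (C.offDiag.filter fun x => f x.1 ≠ f x.2) ⊆
        ((C ×ˢ C).filter fun x => ¬ f x.1 = f x.2) := by
      intro x hx
      obtain ⟨hx1, hx2⟩ := mem_filter.1 hx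
      obtain ⟨h6, h7, _⟩ := mem_offDiag.1 hx1
      exact mem_filter.2 ⟨mem_product.2 ⟨h6, h7⟩, hx2⟩
    exact_mod_cast card_le_card this
  have hr' : (0 : ℝ) < r := by exact_mod_cast hr
  have h6 : (C.card : ℝ) ^ 2 / r ≤ ∑ v : Fin r, ((C.filter fun c => f c = v).card : ℝ) ^ 2 := by
    rw [div_le_iff₀ hr']; linarith
  have h7 : (((r : ℝ) - 1) / r) * (C.card : ℝ) ^ 2 = (C.card : ℝ) ^ 2 - (C.card : ℝ) ^ 2 / r := by
    field_simp
  rw [h7]
  linarith

/-- the pair with number `t` of a selection -/
def pr (d : α × α) : ℕ → List (α × α) → ℕ → α × α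
  | 0, _, _ => d
  | _ + 1, [], _ => d
  | s + 1, p :: l, t => if t = s then p else pr d s l t

theorem valid_mem (d : α × α) (s : ℕ) : ∀ (C : Finset α) (l : List (α × α)), Valid s C l →
    ∀ t < s, pr d s l t ∈ C.offDiag := by
  induction s with
  | zero => intro C l _ t ht; omega
  | succ s ih =>
    rintro C l ⟨p, hp, l', hl', rfl⟩ t ht
    unfold pr
    split_ifs with h
    · exact hp
    · have h1 := mem_offDiag.1 (ih _ l' hl' t (by omega))
      exact mem_offDiag.2 ⟨mem_of_mem_erase (mem_of_mem_erase h1.1),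
        mem_of_mem_erase (mem_of_mem_erase h1.2.1), h1.2.2⟩

/-- the four elements of two different pairs are different -/
theorem valid_ne (d : α × α) (s : ℕ) : ∀ (C : Finset α) (l : List (α × α)), Valid s C l →
    ∀ t < s, ∀ t' < t, (pr d s l t).1 ≠ (pr d s l t').1 ∧ (pr d s l t).1 ≠ (pr d s l t').2 ∧
      (pr d s l t).2 ≠ (pr d s l t').1 ∧ (pr d s l t).2 ≠ (pr d s l t').2 := by
  induction s with
  | zero => intro C l _ t ht; omega
  | succ s ih =>
    rintro C l ⟨p, hp, l', hl', rfl⟩ t ht t' ht'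
    unfold pr
    rw [if_neg (show ¬ t' = s by omega)]
    split_ifs with h
    · have h1 := mem_offDiag.1 (valid_mem d s _ l' hl' t' (by omega))
      have h2 := mem_erase.1 h1.1
      have h3 := mem_erase.1 h1.2.1
      have h4 := mem_erase.1 h2.2
      have h5 := mem_erase.1 h3.2
      exact ⟨h4.1.symm, h5.1.symm, h2.1.symm, h3.1.symm⟩
    · exact ih _ l' hl' t (by omega) t' ht'

/-- the bound for the proportion of the selections without a pair of equal colours -/
theorem alive_bound (d : α × α) {r : ℕ} (hr : 1 ≤ r) (χ : ℕ → α → Fin r) (s : ℕ) :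
    ∀ C : Finset α, C.card = 2 * s →
    avg s C (fun l => if ∀ t < s, χ t (pr d s l t).1 ≠ χ t (pr d s l t).2 then (1 : ℝ) else 0) ≤
      (4 * (((r : ℝ) - 1) / r)) ^ s / (s.centralBinom : ℝ) := by
  classical
  induction s with
  | zero => intro C _; simp [avg]
  | succ s ih =>
    intro C hC
    have hr' : (0 : ℝ) < r := by exact_mod_cast hr
    have hr1 : (1 : ℝ) ≤ r := by exact_mod_cast hr
    set β : ℝ := (4 * (((r : ℝ) - 1) / r)) ^ s / (s.centralBinom : ℝ) with hβ
    have hcb : (0 : ℝ) < (s.centralBinom : ℝ) := by exact_mod_cast Nat.centralBinom_pos s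
    have hβ0 : 0 ≤ β := by
      rw [hβ]
      have : 0 ≤ ((r : ℝ) - 1) / r := div_nonneg (by linarith) hr'.le
      positivity
    have h1 : ∀ p ∈ C.offDiag, avg s ((C.erase p.1).erase p.2)
        (fun l => if ∀ t < s + 1, χ t (pr d (s + 1) (p :: l) t).1 ≠ χ t (pr d (s + 1) (p :: l) t).2
          then (1 : ℝ) else 0) ≤ if χ s p.1 ≠ χ s p.2 then β else 0 := by
      intro p hp
      split_ifs with h
      · refine le_trans (avg_mono _ _ _ _ fun l _ => ?_) (ih _ (card_erase2 hC hp))
        by_cases h2 : ∀ t < s + 1, χ t (pr d (s + 1) (p :: l) t).1 ≠ χ t (pr d (s + 1) (p :: l) t).2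
        · have h3 : ∀ t < s, χ t (pr d s l t).1 ≠ χ t (pr d s l t).2 := by
            intro t ht
            have := h2 t (by omega)
            unfold pr at this
            rwa [if_neg (show ¬ t = s by omega)] at this
          rw [if_pos h2, if_pos h3]
        · rw [if_neg h2]
          split_ifs <;> norm_num
      · refine le_trans (avg_mono _ _ _ (fun _ => 0) fun l _ => ?_) (le_of_eq (avg_zero _ _))
        rw [if_neg]
        intro h2
        have := h2 s (by omega)
        unfold pr at this
        rw [if_pos rfl] at this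
        exact h this
    unfold avg
    have h2 := sum_le_sum h1
    rw [← sum_filter, sum_const, nsmul_eq_mul] at h2
    have h3 := card_diff hr C (χ s)
    rw [hC] at h3
    rw [card_off hC]
    have h4 : (0 : ℝ) < (2 * ((s : ℝ) + 1)) * (2 * s + 1) := by positivity
    rw [div_le_iff₀ h4]
    refine h2.trans ((mul_le_mul_of_nonneg_right h3 hβ0).trans (le_of_eq ?_))
    have h5 : (((s + 1).centralBinom : ℕ) : ℝ) * (s + 1) = 2 * (2 * s + 1) * (s.centralBinom : ℝ) := by
      have := Nat.succ_mul_centralBinom_succ s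
      have h6 : ((s + 1 : ℕ) : ℝ) * (((s + 1).centralBinom : ℕ) : ℝ)
          = 2 * (2 * (s : ℝ) + 1) * (s.centralBinom : ℝ) := by exact_mod_cast this
      push_cast at h6
      linarith
    have hcb2 : (0 : ℝ) < ((s + 1).centralBinom : ℝ) := by exact_mod_cast Nat.centralBinom_pos (s + 1)
    rw [hβ, pow_succ]
    have h7 : (s.centralBinom : ℝ) = ((s + 1).centralBinom : ℝ) * (s + 1) / (2 * (2 * s + 1)) := by
      rw [eq_div_iff (by positivity)]; linarith
    rw [h7]
    push_cast
    generalize ((r : ℝ) - 1) / r = x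

    field_simp
    ring

end Pool.Agent.Helper39.KE
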