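import Mathlib

set_option autoImplicit false

open Finset

namespace Pool.Agent.Helper39.KE

/-- The number of perfect matchings of the bipartite graph with `n + n` vertices whose edges are
the pairs in `G` (the permanent of its `0`-`1` matrix). -/
def pm {n : ℕ} (G : Finset (Fin n × Fin n)) : ℕ :=
  (univ.filter fun σ : Equiv.Perm (Fin n) => ∀ i, (i, σ i) ∈ G).card

/-- The matrix `A` with the entries outside `G` replaced by `0`, that is the entrywise product of
`A` with the `0`-`1` matrix of `G`. -/
def masked {R : Type} [CommRing R] {n : ℕ} (A : Matrix (Fin n) (Fin n) R)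
    (G : Finset (Fin n × Fin n)) : Matrix (Fin n) (Fin n) R :=
  fun i j => if (i, j) ∈ G then A i j else 0

/-- For any two rows of `A` the columns fall in `r` classes such that the `2 × 2` minors formed by
the two rows and two columns of the same class vanish. -/
def Classes {R : Type} [CommRing R] {n : ℕ} (r : ℕ) (A : Matrix (Fin n) (Fin n) R) : Prop :=
  ∀ i i' : Fin n, ∃ χ : Fin n → Fin r, ∀ c d, χ c = χ d → A i c * A i' d = A i d * A i' c

/-- An adaptive algorithm which knows its input graph `G` only by the values of the determinants of
`masked A G` for matrices `A` of its choice.  The next question and the output may depend in an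
arbitrary way on the answers. -/
inductive Prog (R : Type) (n : ℕ) : Type
  | out (v : ℝ) : Prog R n
  | ask (A : Matrix (Fin n) (Fin n) R) (next : R → Prog R n) : Prog R n

/-- The output on the graph `G`. -/
def Prog.run {R : Type} [CommRing R] {n : ℕ} (G : Finset (Fin n × Fin n)) : Prog R n → ℝ
  | .out v => v
  | .ask A next => (next (masked A G).det).run G

/-- There are at most `T` questions on every path, and all of them have matrices `A` with
`Classes r A`. -/
def Prog.Within {R : Type} [CommRing R] {n : ℕ} (r : ℕ) : ℕ → Prog R n → Prop
  | _, .out _ => True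
  | 0, .ask _ _ => False
  | T + 1, .ask A next => Classes r A ∧ ∀ a, (next a).Within r T

/-- If every row of `A` has at most `k` distinct entries then `Classes (k ^ 2) A`. -/
theorem classes_of_ncard {R : Type} [CommRing R] {n k : ℕ} (A : Matrix (Fin n) (Fin n) R)
    (h : ∀ i, (Set.range (A i)).ncard ≤ k) : Classes (k ^ 2) A := by
  classical
  intro i i'
  -- an injection of the values of each row into `Fin k`
  have hinj : ∀ i, ∃ f : Fin n → Fin k, ∀ c d, f c = f d → A i c = A i d := by
    intro i
    have h1 : (Set.range (A i)).Finite := Set.finite_range _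
    have h2 : Nat.card (Set.range (A i)) ≤ Nat.card (Fin k) := by
      rw [Nat.card_fin, Nat.card_coe_set_eq]; exact h i
    have : Finite (Set.range (A i)) := h1
    have : Fintype (Set.range (A i)) := Fintype.ofFinite _
    rw [Nat.card_eq_fintype_card, Nat.card_eq_fintype_card] at h2
    obtain ⟨e⟩ := Function.Embedding.nonempty_of_card_le h2
    refine ⟨fun c => e ⟨A i c, c, rfl⟩, fun c d hcd => ?_⟩
    have := e.injective hcd
    exact congrArg Subtype.val this
  obtain ⟨f, hf⟩ := hinj i
  obtain ⟨g, hg⟩ := hinj i'
  refine ⟨fun c => (finProdFinEquiv (f c, g c)).cast (by rw [sq]), fun c d hcd => ?_⟩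
  have h1 : finProdFinEquiv (f c, g c) = finProdFinEquiv (f d, g d) := by
    have := congrArg (Fin.cast (show k ^ 2 = k * k by rw [sq])) hcd
    simpa using this
  have h2 := finProdFinEquiv.injective h1
  rw [Prod.mk.injEq] at h2
  rw [hf c d h2.1, hg c d h2.2]

end Pool.Agent.Helper39.KE
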