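import Mathlib
import Pool.Agent.Helper39.KE.Defs
import Pool.Agent.Helper39.KE.Avg

set_option autoImplicit false

open Finset

namespace Pool.Agent.Helper39.KE

/-- a determinant with two rows supported in two columns -/
theorem det_zero {R : Type} [CommRing R] {n : ℕ} (M : Matrix (Fin n) (Fin n) R) (i1 i2 : Fin n)
    (hi : i1 ≠ i2) (j1 j2 : Fin n) (h1 : ∀ j, j ≠ j1 → j ≠ j2 → M i1 j = 0)
    (h2 : ∀ j, j ≠ j1 → j ≠ j2 → M i2 j = 0) (h : M i1 j1 * M i2 j2 = M i1 j2 * M i2 j1) :
    M.det = 0 := by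
  classical
  rw [← Matrix.det_transpose, Matrix.det_apply]
  refine sum_involution (fun σ _ => σ * Equiv.swap i1 i2) ?_ ?_ ?_ ?_
  · intro σ _
    -- the two products
    have hprod : ∀ τ : Equiv.Perm (Fin n), ∏ i, M.transpose (τ i) i =
        (M i1 (τ i1) * M i2 (τ i2)) * ∏ i ∈ (univ.erase i1).erase i2, M i (τ i) := by
      intro τ
      rw [← mul_prod_erase univ (fun i => M.transpose (τ i) i) (mem_univ i1),
        ← mul_prod_erase (univ.erase i1) (fun i => M.transpose (τ i) i)
          (mem_erase.2 ⟨hi.symm, mem_univ i2⟩), mul_assoc]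
      rfl
    rw [hprod, hprod]
    have hrest : ∏ i ∈ (univ.erase i1).erase i2, M i ((σ * Equiv.swap i1 i2) i) =
        ∏ i ∈ (univ.erase i1).erase i2, M i (σ i) := by
      refine prod_congr rfl fun i hi' => ?_
      rw [mem_erase, mem_erase] at hi'
      rw [Equiv.Perm.mul_apply, Equiv.swap_apply_of_ne_of_ne hi'.2.1 hi'.1]
    rw [hrest, Equiv.Perm.mul_apply, Equiv.Perm.mul_apply, Equiv.swap_apply_left,
      Equiv.swap_apply_right, Equiv.Perm.sign_mul, Equiv.Perm.sign_swap hi]
    have hkey : M i1 (σ i1) * M i2 (σ i2) = M i1 (σ i2) * M i2 (σ i1) := by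
      have hne : σ i1 ≠ σ i2 := fun h3 => hi (σ.injective h3)
      by_cases a1 : σ i1 = j1
      · by_cases b2 : σ i2 = j2
        · rw [a1, b2]; exact h
        · have b1 : σ i2 ≠ j1 := fun h3 => hne (a1.trans h3.symm)
          rw [h2 _ b1 b2, h1 _ b1 b2]; ring
      · by_cases a2 : σ i1 = j2
        · by_cases b1 : σ i2 = j1
          · rw [a2, b1]; exact h.symm
          · have b2 : σ i2 ≠ j2 := fun h3 => hne (a2.trans h3.symm)
            rw [h2 _ b1 b2, h1 _ b1 b2]; ring
        · rw [h1 _ a1 a2, h2 _ a1 a2]; ring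
    rw [hkey]
    simp
  · intro σ _ _ h3
    have h4 : Equiv.swap i1 i2 = 1 := by
      have : σ * Equiv.swap i1 i2 = σ * 1 := by rw [mul_one]; exact h3
      exact mul_left_cancel this
    exact hi (Equiv.swap_eq_one_iff.1 h4)
  · intro σ _; exact mem_univ _
  · intro σ _
    rw [mul_assoc, Equiv.swap_mul_self, mul_one]

variable {m b : ℕ}

open Classical in
/-- the sparse graph -/
noncomputable def graph (q : ℕ → Fin (2 * m + b) × Fin (2 * m + b)) :
    Finset (Fin (2 * m + b) × Fin (2 * m + b)) :=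
  univ.filter fun p => ((p.1 : ℕ) < 2 * m ∧
    (p.2 = (q ((p.1 : ℕ) / 2)).1 ∨ p.2 = (q ((p.1 : ℕ) / 2)).2)) ∨ (2 * m ≤ (p.1 : ℕ) ∧ p.2 = p.1)

open Classical in
/-- the dense graph -/
noncomputable def graph' (q : ℕ → Fin (2 * m + b) × Fin (2 * m + b)) :
    Finset (Fin (2 * m + b) × Fin (2 * m + b)) :=
  graph q ∪ univ.filter fun p => 2 * m ≤ (p.1 : ℕ) ∧ 2 * m ≤ (p.2 : ℕ)

/-- the pairs are disjoint pairs of different columns smaller than `2 * m` -/
def Ok (q : ℕ → Fin (2 * m + b) × Fin (2 * m + b)) : Prop :=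
  (∀ t < m, (q t).1 ≠ (q t).2 ∧ ((q t).1 : ℕ) < 2 * m ∧ ((q t).2 : ℕ) < 2 * m) ∧
  ∀ t < m, ∀ t' < t, (q t).1 ≠ (q t').1 ∧ (q t).1 ≠ (q t').2 ∧ (q t).2 ≠ (q t').1 ∧
    (q t).2 ≠ (q t').2

theorem killed {R : Type} [CommRing R] (q : ℕ → Fin (2 * m + b) × Fin (2 * m + b))
    (A : Matrix (Fin (2 * m + b)) (Fin (2 * m + b)) R) (t : ℕ) (ht : t < m)
    (hm : A ⟨2 * t, by omega⟩ (q t).1 * A ⟨2 * t + 1, by omega⟩ (q t).2 =
      A ⟨2 * t, by omega⟩ (q t).2 * A ⟨2 * t + 1, by omega⟩ (q t).1)
    (G : Finset (Fin (2 * m + b) × Fin (2 * m + b)))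
    (hG : ∀ i j : Fin (2 * m + b), (i : ℕ) < 2 * m → ((i, j) ∈ G ↔ (i, j) ∈ graph q)) :
    (masked A G).det = 0 := by
  classical
  have r1 : ∀ j, ((⟨2 * t, by omega⟩, j) : Fin (2 * m + b) × Fin (2 * m + b)) ∈ G ↔
      j = (q t).1 ∨ j = (q t).2 := by
    intro j
    rw [hG _ _ (by show 2 * t < 2 * m; omega)]
    simp only [graph, mem_filter, mem_univ, true_and]
    have h1 : 2 * t / 2 = t := by omega
    rw [h1]
    constructor
    · rintro (h | h)
      · exact h.2
      · omega
    · intro h; exact Or.inl ⟨by omega, h⟩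
  have r2 : ∀ j, ((⟨2 * t + 1, by omega⟩, j) : Fin (2 * m + b) × Fin (2 * m + b)) ∈ G ↔
      j = (q t).1 ∨ j = (q t).2 := by
    intro j
    rw [hG _ _ (by show 2 * t + 1 < 2 * m; omega)]
    simp only [graph, mem_filter, mem_univ, true_and]
    have h1 : (2 * t + 1) / 2 = t := by omega
    rw [h1]
    constructor
    · rintro (h | h)
      · exact h.2
      · omega
    · intro h; exact Or.inl ⟨by omega, h⟩
  refine det_zero _ ⟨2 * t, by omega⟩ ⟨2 * t + 1, by omega⟩ ?_ (q t).1 (q t).2 ?_ ?_ ?_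
  · intro h; simp only [Fin.mk.injEq] at h; omega
  · intro j h1 h2
    simp only [masked]
    rw [if_neg]
    rw [r1]; rintro (h | h)
    · exact h1 h
    · exact h2 h
  · intro j h1 h2
    simp only [masked]
    rw [if_neg]
    rw [r2]; rintro (h | h)
    · exact h1 h
    · exact h2 h
  · simp only [masked]
    rw [if_pos ((r1 _).2 (Or.inl rfl)), if_pos ((r2 _).2 (Or.inr rfl)),
      if_pos ((r1 _).2 (Or.inr rfl)), if_pos ((r2 _).2 (Or.inl rfl))]
    exact hm

theorem graph_row_iff (q : ℕ → Fin (2 * m + b) × Fin (2 * m + b)) (i j : Fin (2 * m + b))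
    (hi : (i : ℕ) < 2 * m) : (i, j) ∈ graph' q ↔ (i, j) ∈ graph q := by
  simp only [graph', mem_union, mem_filter, mem_univ, true_and]
  constructor
  · rintro (h | h)
    · exact h
    · omega
  · exact Or.inl

theorem pm_pos (q : ℕ → Fin (2 * m + b) × Fin (2 * m + b)) (hq : Ok q) : 0 < pm (graph q) := by
  classical
  set f : Fin (2 * m + b) → Fin (2 * m + b) := fun i =>
    if (i : ℕ) < 2 * m then (if (i : ℕ) % 2 = 0 then (q ((i : ℕ) / 2)).1 else (q ((i : ℕ) / 2)).2)
    else i with hf
  have hlt : ∀ i : Fin (2 * m + b), (i : ℕ) < 2 * m → ((f i : Fin _) : ℕ) < 2 * m := by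
    intro i hi
    have h1 := hq.1 ((i : ℕ) / 2) (by omega)
    simp only [hf]
    rw [if_pos hi]
    split_ifs
    · exact h1.2.1
    · exact h1.2.2
  have hinj : Function.Injective f := by
    intro i j hij
    by_cases hi : (i : ℕ) < 2 * m
    · by_cases hj : (j : ℕ) < 2 * m
      · have h1 := hq.1 ((i : ℕ) / 2) (by omega)
        simp only [hf] at hij
        rw [if_pos hi, if_pos hj] at hij
        rcases Nat.lt_trichotomy ((i : ℕ) / 2) ((j : ℕ) / 2) with h | h | h
        · have h2 := hq.2 ((j : ℕ) / 2) (by omega) ((i : ℕ) / 2) h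
          split_ifs at hij
          · exact absurd hij.symm h2.1
          · exact absurd hij.symm h2.2.2.1
          · exact absurd hij.symm h2.2.1
          · exact absurd hij.symm h2.2.2.2
        · rw [← h] at hij
          split_ifs at hij with a1 a2 a2
          · exact Fin.ext (by omega)
          · exact absurd hij h1.1
          · exact absurd hij.symm h1.1
          · exact Fin.ext (by omega)
        · have h2 := hq.2 ((i : ℕ) / 2) (by omega) ((j : ℕ) / 2) h
          split_ifs at hij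
          · exact absurd hij h2.1
          · exact absurd hij h2.2.1
          · exact absurd hij h2.2.2.1
          · exact absurd hij h2.2.2.2
      · have h1 := hlt i hi
        have h2 : f j = j := by simp only [hf]; rw [if_neg hj]
        rw [hij, h2] at h1
        exact absurd h1 hj
    · have h2 : f i = i := by simp only [hf]; rw [if_neg hi]
      by_cases hj : (j : ℕ) < 2 * m
      · have h1 := hlt j hj
        rw [← hij, h2] at h1
        exact absurd h1 hi
      · have h3 : f j = j := by simp only [hf]; rw [if_neg hj]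
        rw [h2, h3] at hij
        exact hij
  have hbij := Finite.injective_iff_bijective.1 hinj
  unfold pm
  rw [card_pos]
  refine ⟨Equiv.ofBijective f hbij, mem_filter.2 ⟨mem_univ _, fun i => ?_⟩⟩
  rw [Equiv.ofBijective_apply]
  simp only [graph, mem_filter, mem_univ, true_and]
  by_cases hi : (i : ℕ) < 2 * m
  · refine Or.inl ⟨hi, ?_⟩
    simp only [hf]
    rw [if_pos hi]
    split_ifs
    · exact Or.inl rfl
    · exact Or.inr rfl
  · refine Or.inr ⟨by omega, ?_⟩
    simp only [hf]
    rw [if_neg hi]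

/-- the embedding of the second part -/
def emb2 (m b : ℕ) : Fin b ↪ Fin (2 * m + b) where
  toFun i := ⟨2 * m + i, by omega⟩
  inj' := by
    intro i j h
    simp only [Fin.mk.injEq] at h
    exact Fin.ext (by omega)

theorem pm_ratio (q : ℕ → Fin (2 * m + b) × Fin (2 * m + b)) :
    b.factorial * pm (graph q) ≤ pm (graph' q) := by
  classical
  have h0 : b.factorial = (univ : Finset (Equiv.Perm (Fin b))).card := by
    rw [card_univ, Fintype.card_perm, Fintype.card_fin]
  unfold pm
  rw [h0, ← card_product]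
  have hfix : ∀ π : Equiv.Perm (Fin (2 * m + b)), (∀ i, (i, π i) ∈ graph q) →
      ∀ i : Fin (2 * m + b), 2 * m ≤ (i : ℕ) → π i = i := by
    intro π hπ i hi
    have h1 := hπ i
    simp only [graph, mem_filter, mem_univ, true_and] at h1
    rcases h1 with h1 | h1
    · omega
    · exact h1.2
  have hτ1 : ∀ (τ : Equiv.Perm (Fin b)) (i : Fin (2 * m + b)), (i : ℕ) < 2 * m →
      τ.viaFintypeEmbedding (emb2 m b) i = i := by
    intro τ i hi
    apply Equiv.Perm.viaFintypeEmbedding_apply_notMem_range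
    rintro ⟨j, hj⟩
    have : (emb2 m b j : ℕ) = i := by rw [hj]
    simp only [emb2, Function.Embedding.coeFn_mk] at this
    omega
  have hsurj : ∀ i : Fin (2 * m + b), 2 * m ≤ (i : ℕ) → ∃ j, emb2 m b j = i := by
    intro i hi
    refine ⟨⟨(i : ℕ) - 2 * m, by omega⟩, ?_⟩
    apply Fin.ext
    simp only [emb2, Function.Embedding.coeFn_mk]
    omega
  have hge : ∀ j, 2 * m ≤ (emb2 m b j : ℕ) := by
    intro j
    simp only [emb2, Function.Embedding.coeFn_mk]
    omega
  refine card_le_card_of_injOn (fun x => x.2 * x.1.viaFintypeEmbedding (emb2 m b)) ?_ ?_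
  · rintro ⟨τ, π⟩ hx
    simp only [coe_product, Set.mem_prod, mem_coe, mem_filter, mem_univ, true_and] at hx ⊢
    intro i
    rcases Nat.lt_or_ge (i : ℕ) (2 * m) with hi | hi
    · rw [Equiv.Perm.mul_apply, hτ1 τ i hi, graph_row_iff q _ _ hi]
      exact hx i
    · obtain ⟨j, rfl⟩ := hsurj i hi
      rw [Equiv.Perm.mul_apply, Equiv.Perm.viaFintypeEmbedding_apply_image, hfix π hx _ (hge _)]
      simp only [graph', mem_union, mem_filter, mem_univ, true_and]
      exact Or.inr ⟨hge _, hge _⟩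
  · rintro ⟨τ, π⟩ hx ⟨τ', π'⟩ hx' h
    simp only [coe_product, Set.mem_prod, mem_coe, mem_filter, mem_univ, true_and] at hx hx'
    simp only at h
    have h1 : τ = τ' := by
      apply Equiv.ext
      intro j
      have h2 := congrArg (fun f : Equiv.Perm (Fin (2 * m + b)) => f (emb2 m b j)) h
      simp only [Equiv.Perm.mul_apply, Equiv.Perm.viaFintypeEmbedding_apply_image] at h2
      rw [hfix π hx _ (hge _), hfix π' hx' _ (hge _)] at h2
      exact (emb2 m b).injective h2
    subst h1
    have h3 := mul_right_cancel h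
    rw [h3]

end Pool.Agent.Helper39.KE
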