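import Mathlib
import Pool.Agent.Helper39.KE.Graph

set_option autoImplicit false

open Finset

namespace Pool.Agent.Helper39.KE

variable {m b : ℕ}

/-- the first `2 m` columns -/
def C0 (m b : ℕ) : Finset (Fin (2 * m + b)) := univ.filter fun c => (c : ℕ) < 2 * m

theorem card_C0 (m b : ℕ) : (C0 m b).card = 2 * m := by
  unfold C0
  have h : (univ.filter fun c : Fin (2 * m + b) => (c : ℕ) < 2 * m) =
      (univ : Finset (Fin (2 * m))).map (Fin.castAddEmb b) := by
    ext c
    simp only [mem_filter, mem_univ, true_and, mem_map, Fin.castAddEmb_apply]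
    constructor
    · intro h; exact ⟨⟨c, h⟩, rfl⟩
    · rintro ⟨i, rfl⟩; exact i.2
  rw [h, card_map, card_univ, Fintype.card_fin]

theorem ok_of_valid (d : Fin (2 * m + b) × Fin (2 * m + b))
    (l : List (Fin (2 * m + b) × Fin (2 * m + b))) (hl : Valid m (C0 m b) l) : Ok (pr d m l) := by
  refine ⟨fun t ht => ?_, fun t ht t' ht' => valid_ne d m _ l hl t ht t' ht'⟩
  have h := mem_offDiag.1 (valid_mem d m _ l hl t ht)
  exact ⟨h.2.2, (mem_filter.1 h.1).2, (mem_filter.1 h.2.1).2⟩

/-- the bound for the probability that a question gives information -/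
noncomputable def beta (r m : ℕ) : ℝ := (4 * (((r : ℝ) - 1) / r)) ^ m / (m.centralBinom : ℝ)

theorem beta_nonneg (r m : ℕ) (hr : 1 ≤ r) : 0 ≤ beta r m := by
  unfold beta
  have hr' : (1 : ℝ) ≤ r := by exact_mod_cast hr
  have : 0 ≤ ((r : ℝ) - 1) / r := div_nonneg (by linarith) (by linarith)
  positivity

open Classical in
theorem differ {R : Type} [CommRing R] (d : Fin (2 * m + b) × Fin (2 * m + b)) (r : ℕ)
    (hr : 1 ≤ r) (T : ℕ) : ∀ P : Prog R (2 * m + b), P.Within r T →
      avg m (C0 m b) (fun l => if P.run (graph (pr d m l)) ≠ P.run (graph' (pr d m l))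
        then (1 : ℝ) else 0) ≤ T * beta r m := by
  have hβ := beta_nonneg r m hr
  induction T with
  | zero =>
    intro P hP
    cases P with
    | out v => simp [Prog.run, avg_zero]
    | ask A next => exact absurd hP (by simp [Prog.Within])
  | succ T ih =>
    intro P hP
    cases P with
    | out v =>
      simp only [Prog.run, ne_eq, not_true_eq_false, if_false, avg_zero]
      positivity
    | ask A next =>
      obtain ⟨hA, hnext⟩ := hP
      choose χ hχ using hA
      set ψ : ℕ → Fin (2 * m + b) → Fin r := fun t =>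
        if h : t < m then χ ⟨2 * t, by omega⟩ ⟨2 * t + 1, by omega⟩ else fun _ => ⟨0, hr⟩ with hψ
      have h1 := alive_bound d hr ψ m (C0 m b) (card_C0 m b)
      have h2 := ih (next 0) (hnext 0)
      have h3 : avg m (C0 m b) (fun l => if (Prog.ask A next).run (graph (pr d m l)) ≠
          (Prog.ask A next).run (graph' (pr d m l)) then (1 : ℝ) else 0) ≤
          avg m (C0 m b) (fun l =>
            (if ∀ t < m, ψ t (pr d m l t).1 ≠ ψ t (pr d m l t).2 then (1 : ℝ) else 0) +
            (if (next 0).run (graph (pr d m l)) ≠ (next 0).run (graph' (pr d m l))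
              then (1 : ℝ) else 0)) := by
        refine avg_mono _ _ _ _ fun l hl => ?_
        by_cases hex : ∀ t < m, ψ t (pr d m l t).1 ≠ ψ t (pr d m l t).2
        · rw [if_pos hex]
          split_ifs <;> norm_num
        · rw [if_neg hex]
          push Not at hex
          obtain ⟨t, ht, h4⟩ := hex
          have h5 := hχ ⟨2 * t, by omega⟩ ⟨2 * t + 1, by omega⟩ (pr d m l t).1 (pr d m l t).2 (by
            simpa only [hψ, dif_pos ht] using h4)
          have e1 : (masked A (graph (pr d m l))).det = 0 :=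
            killed (pr d m l) A t ht h5 _ (fun _ _ _ => Iff.rfl)
          have e2 : (masked A (graph' (pr d m l))).det = 0 :=
            killed (pr d m l) A t ht h5 _ (fun i j hi => graph_row_iff _ i j hi)
          have f1 : (Prog.ask A next).run (graph (pr d m l)) =
              (next 0).run (graph (pr d m l)) := by
            show (next (masked A (graph (pr d m l))).det).run _ = _
            rw [e1]
          have f2 : (Prog.ask A next).run (graph' (pr d m l)) =
              (next 0).run (graph' (pr d m l)) := by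
            show (next (masked A (graph' (pr d m l))).det).run _ = _
            rw [e2]
          by_cases h6 : (next 0).run (graph (pr d m l)) = (next 0).run (graph' (pr d m l))
          · rw [if_neg (by rw [f1, f2]; exact not_not.2 h6), if_neg (not_not.2 h6)]; simp
          · rw [if_pos (by rw [f1, f2]; exact h6), if_pos h6]; simp
      rw [avg_add] at h3
      have h4 : avg m (C0 m b) (fun l =>
          if ∀ t < m, ψ t (pr d m l t).1 ≠ ψ t (pr d m l t).2 then (1 : ℝ) else 0) ≤ beta r m := h1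
      push_cast
      linarith

/-- `16 ^ m ≤ 4 m (2m choose m) ^ 2` -/
theorem central (m : ℕ) (hm : 1 ≤ m) : 16 ^ m ≤ 4 * m * m.centralBinom ^ 2 := by
  induction m, hm using Nat.le_induction with
  | base => decide
  | succ m hm ih =>
    have h := Nat.succ_mul_centralBinom_succ m
    have h1 : (m + 1) ^ 2 * (16 ^ (m + 1)) ≤
        (m + 1) ^ 2 * (4 * (m + 1) * (m + 1).centralBinom ^ 2) := by
      have h2 : (m + 1) ^ 2 * (4 * (m + 1) * (m + 1).centralBinom ^ 2) =
          4 * (m + 1) * ((m + 1) * (m + 1).centralBinom) ^ 2 := by ring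
      rw [h2, h]
      have h3 : 4 * (m + 1) * (2 * (2 * m + 1) * m.centralBinom) ^ 2 =
          4 * (m + 1) * (2 * m + 1) ^ 2 * (4 * m.centralBinom ^ 2) := by ring
      rw [h3]
      have h4 : 16 * (m + 1) ^ 2 * m * (m.centralBinom ^ 2) * 4 ≤
          4 * (m + 1) * (2 * m + 1) ^ 2 * (4 * m.centralBinom ^ 2) := by
        have h5 : 16 * (m + 1) ^ 2 * m * 4 ≤ 4 * (m + 1) * (2 * m + 1) ^ 2 * 4 := by
          have h6 : 4 * ((m + 1) * m) ≤ (2 * m + 1) ^ 2 := by nlinarith
          calc 16 * (m + 1) ^ 2 * m * 4 = 16 * (m + 1) * (4 * ((m + 1) * m)) := by ring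
            _ ≤ 16 * (m + 1) * (2 * m + 1) ^ 2 := Nat.mul_le_mul_left _ h6
            _ = _ := by ring
        calc 16 * (m + 1) ^ 2 * m * (m.centralBinom ^ 2) * 4
            = (16 * (m + 1) ^ 2 * m * 4) * m.centralBinom ^ 2 := by ring
          _ ≤ (4 * (m + 1) * (2 * m + 1) ^ 2 * 4) * m.centralBinom ^ 2 :=
              Nat.mul_le_mul_right _ h5
          _ = _ := by ring
      refine le_trans ?_ h4
      calc (m + 1) ^ 2 * 16 ^ (m + 1) = 16 * (m + 1) ^ 2 * 16 ^ m := by ring
        _ ≤ 16 * (m + 1) ^ 2 * (4 * m * m.centralBinom ^ 2) := Nat.mul_le_mul_left _ ih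
        _ = _ := by ring
    exact Nat.le_of_mul_le_mul_left h1 (by positivity)

theorem beta_le (r m : ℕ) (hr : 1 ≤ r) (hm : 1 ≤ m) :
    beta r m ≤ 2 * Real.sqrt m * Real.exp (-(m / r : ℝ)) := by
  have hr' : (1 : ℝ) ≤ r := by exact_mod_cast hr
  have hr0 : (0 : ℝ) < r := by linarith
  have hcb : (0 : ℝ) < (m.centralBinom : ℝ) := by exact_mod_cast Nat.centralBinom_pos m
  have h1 : (4 : ℝ) ^ m ≤ 2 * Real.sqrt m * m.centralBinom := by
    have h2 : ((4 : ℝ) ^ m) ^ 2 ≤ (2 * Real.sqrt m * m.centralBinom) ^ 2 := by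
      have h3 : ((16 ^ m : ℕ) : ℝ) ≤ ((4 * m * m.centralBinom ^ 2 : ℕ) : ℝ) := by
        exact_mod_cast central m hm
      push_cast at h3
      have h4 : ((4 : ℝ) ^ m) ^ 2 = 16 ^ m := by
        rw [← pow_mul, mul_comm, pow_mul]; norm_num
      have h5 : (2 * Real.sqrt m * m.centralBinom) ^ 2 = 4 * (m : ℝ) * (m.centralBinom : ℝ) ^ 2 := by
        rw [mul_pow, mul_pow, Real.sq_sqrt (Nat.cast_nonneg m)]; norm_num
      rw [h4, h5]; exact h3
    exact le_of_sq_le_sq h2 (by positivity)
  have h2 : (((r : ℝ) - 1) / r) ^ m ≤ Real.exp (-(m / r : ℝ)) := by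
    have h3 : ((r : ℝ) - 1) / r ≤ Real.exp (-(1 / r : ℝ)) := by
      have := Real.add_one_le_exp (-(1 / r : ℝ))
      have h4 : ((r : ℝ) - 1) / r = -(1 / r) + 1 := by field_simp; ring
      rw [h4]; exact this
    have h4 : 0 ≤ ((r : ℝ) - 1) / r := div_nonneg (by linarith) hr0.le
    calc (((r : ℝ) - 1) / r) ^ m ≤ (Real.exp (-(1 / r : ℝ))) ^ m := pow_le_pow_left₀ h4 h3 m
      _ = Real.exp (-(m / r : ℝ)) := by rw [← Real.exp_nat_mul]; congr 1; ring
  unfold beta
  rw [mul_pow, div_le_iff₀ hcb]
  have h3 : 0 ≤ (((r : ℝ) - 1) / r) ^ m := by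
    have h4 : 0 ≤ ((r : ℝ) - 1) / r := div_nonneg (by linarith) hr0.le
    positivity
  calc (4 : ℝ) ^ m * (((r : ℝ) - 1) / r) ^ m
      ≤ (2 * Real.sqrt m * m.centralBinom) * Real.exp (-(m / r : ℝ)) :=
        mul_le_mul h1 h2 h3 (by positivity)
    _ = _ := by ring

end Pool.Agent.Helper39.KE
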